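import Pool.Agent.Lib.MP_5c318e_ag.Fm.ExcH
import Pool.Agent.Lib.MP_5c318e_ag.Dv.Fake
import Pool.Agent.Lib.MP_5c318e_ag.Pm.Vis
import Pool.Agent.Lib.MP_5c318e_ag.T6.Mom
import Pool.Agent.Lib.MP_5c318e_ag.Ar.Zero
import Pool.Agent.Lib.MP_5c318e_ag.Ar.Fld
import Pool.Agent.Lib.MP_5c318e_ag.Iv.Ali
import Pool.Agent.Lib.MP_5c318e_ag.Iv.Pol
import Pool.Agent.Lib.MP_5c318e_ag.Sx.Main
import Pool.Agent.Lib.MP_5c318e_ag.Ge.Geo
import Pool.Agent.Lib.MP_5c318e_ag.Dm.ExCnd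

/-! Families over curves with constant norm are isotrivial. -/

set_option autoImplicit false
set_option linter.unusedSectionVars false

namespace Pool.Agent.Lib.MP_5c318e_ag

open MeasureTheory Set Filter Topology
open scoped ENNReal

variable {ν K M : Type} [Fintype ν] [DecidableEq ν] [Field K] [Algebra ℂ K] [Field M] [Algebra ℂ M]
  [Algebra K M] [IsScalarTower ℂ K M]

namespace Dat

namespace Geo

variable {d : Dat Unit K ν M}

/-- the sums of squares that the metric has to see -/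
noncomputable def lists (G : d.Geo) {I : Type} (f : I → ν → M) (Y n : G.No.DD → ν → d.T.X.O) :
    Unit ⊕ (I × ν) ⊕ (G.No.DD × ν) → Pt d.T.X.O → ℝ :=
  Sum.elim (fun _ p => ∑ x : Fin G.na × Fin G.nb, ‖p (G.ρ x.1 * G.r x.2)‖ ^ 2)
    (Sum.elim (fun x p => 1 + ‖p.ev (f x.1 x.2)‖ ^ 2)
      fun x p => 1 + ‖p (Y x.1 x.2)‖ ^ 2 + ‖p (n x.1 x.2)‖ ^ 2)

theorem isotriv (G : d.Geo) (hC : d.Const) (Fr : Frames2 d.T.dx) (hf : ∀ i l, Fr.f i l ∈ d.T.X.O)
    (hσ : ∀ i, ∃ σ : d.T.X.O, IsUnit σ ∧ (σ : M) ∈ Fr.A i ∧ ∀ φ : d.T.X.O, ∃ e : ℕ,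
      (σ : M) ^ e * φ ∈ Fr.A i) : Isotriv K M := by
  classical
  have := G.No.finite_DD
  have := Fintype.ofFinite G.No.DD
  obtain ⟨Y, n, hY⟩ := G.U.exists_vis d.B.basis
  obtain ⟨Φ, P, v, E, hΦ, hP, vis, hv, vt, tan, hB, -⟩ := d.exists_tan hC G.τu hf
    (w := G.lists Fr.f Y n) (by
      rintro (_ | x | x)
      exacts [Cht.sos_fin _, (Cht.sos_const zero_le_one).add (Cht.sos_ev (hf _ _)), Cht.sos_vis _ _])
    (by
      rintro (_ | x | x) p
      exacts [one_pos.trans_le (G.one p), by simp only [lists, Sum.elim_inr, Sum.elim_inl]; positivity,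
        by simp only [lists, Sum.elim_inr]; positivity])
  have hO : ∀ a ∈ d.T.X.O, v a ∈ d.T.X.O := fun a ha => Cht.der_mem_of hv ha
  have hd := fun (a : d.T.X.O) p => Cht.vd_fld (p := p) (fun j => p.reg_coe ⟨_, hv j⟩) a
  obtain ⟨np, c, cd, c1, c2, c3, c4, c5, c6, c7, c8, c9⟩ := G.exists_cnd Fr hf (fun i => by
    obtain ⟨σ, ⟨u, rfl⟩, h1, h2⟩ := hσ i
    choose e he using h2
    let N := Finset.univ.sup fun x : Fin G.na × Fin G.nb => e (G.ρ x.1 * G.r x.2)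
    have e1 : (((u⁻¹ ^ N : (d.T.X.O)ˣ) : d.T.X.O) : M)⁻¹ = ((u : d.T.X.O) : M) ^ N := by
      refine inv_eq_of_mul_eq_one_right ?_
      rw [← SubmonoidClass.coe_pow, ← MulMemClass.coe_mul, ← Units.val_pow_eq_pow_val,
        ← Units.val_mul, ← mul_pow, inv_mul_cancel, one_pow]
      rfl
    refine ⟨(u⁻¹ ^ N : (d.T.X.O)ˣ), Units.ne_zero _, e1 ▸ pow_mem h1 N, fun a j => ?_⟩
    have hle : e (G.ρ a * G.r j) ≤ N :=
      Finset.le_sup (f := fun x : Fin G.na × Fin G.nb => e (G.ρ x.1 * G.r x.2))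
        (Finset.mem_univ (a, j))
    rw [div_eq_mul_inv, e1, mul_comm, ← Nat.sub_add_cancel hle, pow_add, mul_assoc]
    exact mul_mem (pow_mem h1 _) (he _)) fun V => ¬ ∀ φ ∈ V.1, v φ ∈ V.1
  obtain ⟨E', hE, inv⟩ := G.inv_of_tan tan hB (vis (Sum.inl ()))
  let Q : G.Pol :=
    { pol := fun V => ¬ ∀ φ ∈ V.1, v φ ∈ V.1
      np := np, c := c, cO := c1, cJ := c2, cl := c3, cw := c4, cw' := c5, cw'' := c6, cz := c7
      q := fun p => d.T.X.D.levi Φ p (d.T.X.fld v p)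
      qc := (RD.levi_sm hΦ.pos.1 tan.fl.sm).cont
      q0 := fun p => tan.psh.2 p _
      vis := fun V hV => hY v _ _ hO hd V
        (fun _ => vt ▸ one_mem _) hV fun j p => vis (Sum.inr (Sum.inr (V, j))) p _
      y := d.yy Fr.f, y0 := d.yy_nonneg _, cd := cd, dom := c9
      al := d.fs
      alm := d.fs_cont.measurable
      al0 := fun b => (d.fs_pos b).le
      s0 := P, ali := d.B.ali d.T.finB hP.le.choose_spec.2, mom := T6.mom_field G G.lc hP.siz, E := E', Et := hE, inv := inv }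
  refine Q.isotriv (Q.exc hC) vt (fun g => Algebra.subset_adjoin (hO g g.2))
    (fun V hV => not_not.1 hV) fun i => ?_
  obtain ⟨i1, h1⟩ := c8 i
  exact fun φ => fk_stable Fr hf tan.psh (fun i l => vis (Sum.inr (Sum.inl (i, l)))) hd
    (fun _ => ⟨1, vt.trans (map_one _).symm⟩) (by
      have : ∀ p, Real.exp (-d.chi p) = d.Bs p ^ (1 / d.m : ℝ) := fun p => by
        rw [chi, neg_neg, Real.rpow_def_of_pos (Bs_pos G.τu p), mul_one_div]
      simpa only [this] using tan.l2.2) h1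

end Geo

end Dat

/-- T1: families over curves with constant norm are isotrivial -/
theorem curveIso (ν : Type) [Fintype ν] [DecidableEq ν] : CurveIso ν := by
  intro K M _ _ _ _ _ _ d hC
  classical
  rcases isEmpty_or_nonempty ν with _ | _
  · exact d.isotriv_empty
  have : CharZero K := charZero_of_injective_algebraMap (algebraMap ℂ K).injective
  obtain ⟨Fr⟩ := d.hM.frames2 d.T.dual
  obtain ⟨d1, r, -, -, h1, -, h2, ⟨G⟩⟩ := d.exists_geo ∅
    (Finset.univ.image fun x : Fin Fr.N × ν => Fr.f x.1 x.2) Fr.A Fr.fg fun i => (Fr.pr i).frac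
  have h3 : ∀ i l, Fr.f i l ∈ d1.T.X.O := fun i l =>
    (h1 _ (Finset.mem_image.2 ⟨(i, l), Finset.mem_univ _, rfl⟩)).1
  have hC1 := hC.re r
  have e : d1.T.dx = d.T.dx := Rel.dx_eq_of_x r.sub.x_eq
  generalize d.T.dx = dx at Fr h2 h3 e
  subst e
  exact G.isotriv hC1 Fr h3 h2

end Pool.Agent.Lib.MP_5c318e_ag
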